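import Pool.Agent.NNr.R15_1_3_8.D0
import Pool.Agent.NNr.R15_1_3_8.D1
import Pool.Agent.NNe.Slots

set_option linter.all false
set_option maxRecDepth 1000000
namespace Pool.Agent.NNr.R15_1_3_8

open Pool.Agent.NNe

def st1_6_0 : starCk (nat_lit 61) (nat_lit 15) (nat_lit 1) (nat_lit 7) (nat_lit 18) (nat_lit 94) (nat_lit 16) C1_6 = true := by decide +kernel
def sc1_6 : stCov (nat_lit 1) (nat_lit 94) (Rl.cons (nat_lit 94) (nat_lit 18) Rl.nil) C1_6 = true := by decide +kernel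
def wf1_7 : wfC (nat_lit 61) (nat_lit 15) C1_7 = true := by decide +kernel
def rf1_7 : rfCk (nat_lit 60) (nat_lit 5) (nat_lit 61) (nat_lit 15) (nat_lit 6) (nat_lit 262144) (nat_lit 7) TL1 CL0 CL1 = true := by decide +kernel
def sc1_7 : stCov (nat_lit 0) (nat_lit 0) Rl.nil C1_7 = true := by decide +kernel
def wf1_8 : wfC (nat_lit 61) (nat_lit 15) C1_8 = true := by decide +kernel
def rf1_8 : rfCk (nat_lit 60) (nat_lit 5) (nat_lit 61) (nat_lit 15) (nat_lit 6) (nat_lit 262144) (nat_lit 8) TL1 CL0 CL1 = true := by decide +kernel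
def st1_8_0 : starCk (nat_lit 61) (nat_lit 15) (nat_lit 1) (nat_lit 7) (nat_lit 16) (nat_lit 84) (nat_lit 256) C1_8 = true := by decide +kernel
def sc1_8 : stCov (nat_lit 2) (nat_lit 84) (Rl.cons (nat_lit 84) (nat_lit 16) Rl.nil) C1_8 = true := by decide +kernel
def wf1_9 : wfC (nat_lit 61) (nat_lit 15) C1_9 = true := by decide +kernel
def rf1_9 : rfCk (nat_lit 60) (nat_lit 5) (nat_lit 61) (nat_lit 15) (nat_lit 6) (nat_lit 262144) (nat_lit 9) TL1 CL0 CL1 = true := by decide +kernel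
def st1_9_0 : starCk (nat_lit 61) (nat_lit 15) (nat_lit 1) (nat_lit 7) (nat_lit 22) (nat_lit 33) (nat_lit 256) C1_9 = true := by decide +kernel
def sc1_9 : stCov (nat_lit 2) (nat_lit 33) (Rl.cons (nat_lit 33) (nat_lit 22) Rl.nil) C1_9 = true := by decide +kernel
def wf1_13 : wfC (nat_lit 61) (nat_lit 15) C1_13 = true := by decide +kernel
def rf1_13 : rfCk (nat_lit 60) (nat_lit 5) (nat_lit 61) (nat_lit 15) (nat_lit 6) (nat_lit 262144) (nat_lit 13) TL1 CL0 CL1 = true := by decide +kernel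
def st1_13_0 : starCk (nat_lit 61) (nat_lit 15) (nat_lit 1) (nat_lit 7) (nat_lit 154) (nat_lit 187) (nat_lit 4096) C1_13 = true := by decide +kernel
def sc1_13 : stCov (nat_lit 3) (nat_lit 187) (Rl.cons (nat_lit 187) (nat_lit 154) Rl.nil) C1_13 = true := by decide +kernel
def wf1_14 : wfC (nat_lit 61) (nat_lit 15) C1_14 = true := by decide +kernel
def rf1_14 : rfCk (nat_lit 60) (nat_lit 5) (nat_lit 61) (nat_lit 15) (nat_lit 6) (nat_lit 262144) (nat_lit 14) TL1 CL0 CL1 = true := by decide +kernel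
def st1_14_0 : starCk (nat_lit 61) (nat_lit 15) (nat_lit 1) (nat_lit 7) (nat_lit 69) (nat_lit 235) (nat_lit 16) C1_14 = true := by decide +kernel
def sc1_14 : stCov (nat_lit 1) (nat_lit 235) (Rl.cons (nat_lit 235) (nat_lit 69) Rl.nil) C1_14 = true := by decide +kernel
def wf1_15 : wfC (nat_lit 61) (nat_lit 15) C1_15 = true := by decide +kernel
def rf1_15 : rfCk (nat_lit 60) (nat_lit 5) (nat_lit 61) (nat_lit 15) (nat_lit 6) (nat_lit 262144) (nat_lit 15) TL1 CL0 CL1 = true := by decide +kernel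
def st1_15_0 : starCk (nat_lit 61) (nat_lit 15) (nat_lit 1) (nat_lit 7) (nat_lit 49) (nat_lit 154) (nat_lit 16) C1_15 = true := by decide +kernel
def sc1_15 : stCov (nat_lit 1) (nat_lit 154) (Rl.cons (nat_lit 154) (nat_lit 49) Rl.nil) C1_15 = true := by decide +kernel
def wf1_16 : wfC (nat_lit 61) (nat_lit 15) C1_16 = true := by decide +kernel
def rf1_16 : rfCk (nat_lit 60) (nat_lit 5) (nat_lit 61) (nat_lit 15) (nat_lit 6) (nat_lit 262144) (nat_lit 16) TL1 CL0 CL1 = true := by decide +kernel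
def st1_16_0 : starCk (nat_lit 61) (nat_lit 15) (nat_lit 1) (nat_lit 7) (nat_lit 176) (nat_lit 207) (nat_lit 256) C1_16 = true := by decide +kernel
def sc1_16 : stCov (nat_lit 2) (nat_lit 207) (Rl.cons (nat_lit 207) (nat_lit 176) Rl.nil) C1_16 = true := by decide +kernel
def wf1_17 : wfC (nat_lit 61) (nat_lit 15) C1_17 = true := by decide +kernel
def rf1_17 : rfCk (nat_lit 60) (nat_lit 5) (nat_lit 61) (nat_lit 15) (nat_lit 6) (nat_lit 262144) (nat_lit 17) TL1 CL0 CL1 = true := by decide +kernel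
def st1_17_0 : starCk (nat_lit 61) (nat_lit 15) (nat_lit 1) (nat_lit 7) (nat_lit 36) (nat_lit 123) (nat_lit 16) C1_17 = true := by decide +kernel
def sc1_17 : stCov (nat_lit 1) (nat_lit 123) (Rl.cons (nat_lit 123) (nat_lit 36) Rl.nil) C1_17 = true := by decide +kernel
def wf1_18 : wfC (nat_lit 61) (nat_lit 15) C1_18 = true := by decide +kernel
def rf1_18 : rfCk (nat_lit 60) (nat_lit 5) (nat_lit 61) (nat_lit 15) (nat_lit 6) (nat_lit 262144) (nat_lit 18) TL1 CL0 CL1 = true := by decide +kernel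
def st1_18_0 : starCk (nat_lit 61) (nat_lit 15) (nat_lit 1) (nat_lit 7) (nat_lit 14) (nat_lit 52) (nat_lit 16) C1_18 = true := by decide +kernel
def sc1_18 : stCov (nat_lit 1) (nat_lit 52) (Rl.cons (nat_lit 52) (nat_lit 14) Rl.nil) C1_18 = true := by decide +kernel

end Pool.Agent.NNr.R15_1_3_8
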