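import Pool.Agent.NNr.R15_1_3_8.D2

set_option linter.all false
set_option maxRecDepth 1000000
namespace Pool.Agent.NNr.R15_1_3_8

open Pool.Agent.NNe

def de2_5 : deadCk (nat_lit 26) (nat_lit 4) C2_5 = true := by decide +kernel
def de2_6 : deadCk (nat_lit 26) (nat_lit 4) C2_6 = true := by decide +kernel
def de2_7 : deadCk (nat_lit 26) (nat_lit 4) C2_7 = true := by decide +kernel
def de2_9 : deadCk (nat_lit 26) (nat_lit 4) C2_9 = true := by decide +kernel
def de2_10 : deadCk (nat_lit 26) (nat_lit 4) C2_10 = true := by decide +kernel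
def de2_11 : deadCk (nat_lit 26) (nat_lit 4) C2_11 = true := by decide +kernel
def de2_12 : deadCk (nat_lit 26) (nat_lit 4) C2_12 = true := by decide +kernel
def de2_13 : deadCk (nat_lit 26) (nat_lit 4) C2_13 = true := by decide +kernel
def de2_15 : deadCk (nat_lit 26) (nat_lit 4) C2_15 = true := by decide +kernel
def de2_16 : deadCk (nat_lit 26) (nat_lit 4) C2_16 = true := by decide +kernel
def de2_17 : deadCk (nat_lit 26) (nat_lit 4) C2_17 = true := by decide +kernel
def de2_19 : deadCk (nat_lit 26) (nat_lit 4) C2_19 = true := by decide +kernel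

end Pool.Agent.NNr.R15_1_3_8
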